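import Pool.Agent.Helper18.UW.GoalsR

/-!
# Project UW, packet BT: back to a real play
-/

set_option autoImplicit false

namespace Pool.Agent.Helper73.UW

open Finset
open Pool.Agent.Lead.Sh
open Pool.Agent.Helper43.Hw (T na va lz Play aa ac sc oo sk U Dd Sd Pn nx bb np)
open Pool.Agent.Helper43.Gm (Pri st mv nn)
open Pool.Agent.Helper18.EW
open Pool.Agent.Helper18.UW

/-- Monotonicity from steps. -/
theorem mono_of {R : ℕ} {f : ℕ → ℕ} (hf : ∀ y, y + 1 < R → f y ≤ f (y + 1)) {y y' : ℕ}
    (h : y ≤ y') (hy : y' < R) : f y ≤ f y' := by
  induction h with
  | refl => exact le_rfl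
  | step _ ih => exact (ih (by omega)).trans (hf _ hy)

/-- The value of an old point, from the rows before `τ`. -/
theorem va_old {a R τ c : ℕ} {κ x κ' x' : ℕ → ℕ} (h1 : ∀ y < τ, κ y = κ' y ∧ x y = x' y)
    (h2 : ∀ y, τ ≤ y → y < R → c < κ y) (h3 : ∀ y, τ ≤ y → y < R → c < κ' y) {z : ℕ}
    (hz : τ ≤ z) (hzR : z < R) : va a R κ x c z = va a R κ' x' c z := by
  have e1 : st κ c z = st κ' c z := by
    unfold st
    congr 1
    ext y
    rw [mem_filter, mem_filter, mem_range]
    constructor
    · rintro ⟨h4, h5⟩
      refine ⟨h4, ?_⟩
      by_cases h6 : y < τ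
      · rw [← (h1 y h6).1]; exact h5
      · have := h2 y (by omega) (by omega)
        omega
    · rintro ⟨h4, h5⟩
      refine ⟨h4, ?_⟩
      by_cases h6 : y < τ
      · rw [(h1 y h6).1]; exact h5
      · have := h3 y (by omega) (by omega)
        omega
  have e2 : mv κ x (fun _ => a) c z = mv κ' x' (fun _ => a) c z := by
    unfold mv
    ext y
    rw [mem_filter, mem_filter, mem_range]
    constructor
    · rintro ⟨h4, h5, h6, h7⟩
      by_cases h8 : y < τ
      · rw [(h1 y h8).1] at h5
        rw [(h1 y h8).2] at h6 h7
        exact ⟨h4, h5, h6, h7⟩
      · have := h2 y (by omega) (by omega)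
        omega
    · rintro ⟨h4, h5, h6, h7⟩
      by_cases h8 : y < τ
      · rw [← (h1 y h8).1] at h5
        rw [← (h1 y h8).2] at h6 h7
        exact ⟨h4, h5, h6, h7⟩
      · have := h3 y (by omega) (by omega)
        omega
  have h4 := h2 z hz hzR
  have h5 := h3 z hz hzR
  unfold va nn
  rw [if_neg (by omega), if_neg (by omega), if_neg (by omega), if_neg (by omega),
    if_neg (by omega), if_neg (by omega), e1, e2]

/-- Values depend on the rows `≤ z` only. -/
theorem va_before {a R c z : ℕ} {κ x κ' x' : ℕ → ℕ} (h1 : ∀ y ≤ z, κ y = κ' y ∧ x y = x' y) :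
    va a R κ x c z = va a R κ' x' c z := by
  have e1 : st κ c z = st κ' c z := by
    unfold st
    congr 1
    ext y
    rw [mem_filter, mem_filter, mem_range]
    constructor
    · rintro ⟨h4, h5⟩
      exact ⟨h4, by rw [← (h1 y h4.le).1]; exact h5⟩
    · rintro ⟨h4, h5⟩
      exact ⟨h4, by rw [(h1 y h4.le).1]; exact h5⟩
  have e2 : mv κ x (fun _ => a) c z = mv κ' x' (fun _ => a) c z := by
    unfold mv
    ext y
    rw [mem_filter, mem_filter, mem_range]
    constructor
    · rintro ⟨h4, h5, h6, h7⟩
      rw [(h1 y h4.le).1] at h5
      rw [(h1 y h4.le).2] at h6 h7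
      exact ⟨h4, h5, h6, h7⟩
    · rintro ⟨h4, h5, h6, h7⟩
      rw [← (h1 y h4.le).1] at h5
      rw [← (h1 y h4.le).2] at h6 h7
      exact ⟨h4, h5, h6, h7⟩
  have e3 := h1 z le_rfl
  unfold va nn
  rw [e1, e2, e3.1, e3.2]

theorem mem_mv {a c z y : ℕ} {κ x : ℕ → ℕ} : y ∈ mv κ x (fun _ => a) c z ↔
    y < z ∧ κ y = c ∧ 0 < x y ∧ a + y < x y + z := by
  unfold mv
  rw [mem_filter, mem_range]

theorem goalBT (hV1 : GoalV1) : GoalBT := by
  intro m μ δ R N N1 g τ s κ2 x2 κ x hV hs hsR hP hag
  obtain ⟨-, hvt, hvc⟩ := hV1 m μ δ R N N1 g τ κ2 x2 hV
  have hτJ := hV.tJ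
  have hgN := hV.gN
  have hN1g := hV.N1g
  have hτs : τ < s := by omega
  -- the virtual play on the rows
  have hkτ : ∀ y, τ ≤ y → y < s → κ y = g - N1 ∧ x y = na μ R y := by
    intro y h1 h2
    have h3 := hvt y h1 (by omega)
    exact ⟨(hag y h2).1.trans h3.1, (hag y h2).2.trans h3.2⟩
  have hkge : ∀ y, τ ≤ y → y < R → g - N1 ≤ κ y := by
    intro y h1 h2
    have h3 := mono_of hP.mono h1 h2
    rw [(hkτ τ le_rfl hτs).1] at h3
    exact h3
  have hkle : ∀ y, y < s → κ y ≤ g - N1 := by
    intro y h1
    have h3 := mono_of hP.mono (show y ≤ s - 1 by omega) (by omega)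
    rw [(hkτ (s - 1) (by omega) (by omega)).1] at h3
    exact h3
  have hxg : ∀ y, y < s → κ y = g - N1 → x y = na μ R y := by
    intro y h1 h2
    have h3 := hag y h1
    rw [h3.2]
    unfold vx
    rw [if_neg]
    rw [← h3.1]
    omega
  -- the stopped play
  have hk2 : ∀ y, τ ≤ y → y < s → κ2 y = g ∧ x2 y = na (m g) R y := fun y h1 h2 =>
    hV.pa y h1 (by omega)
  have hk2le : ∀ y, y < s → κ2 y ≤ g := by
    intro y h1
    by_cases h2 : τ ≤ y
    · exact (hk2 y h2 h1).1.le
    · have h3 := mono_of hV.play.mono (show y ≤ τ by omega) (by omega)
      rw [hV.kg] at h3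
      exact h3
  have hmg := hV.main g hN1g hgN
  have hx2 : ∀ y, y < τ → κ2 y = g → x2 y = 0 := by
    intro y h1 h2
    by_contra h3
    have key : ∀ j, y + j ≤ τ → 0 < x2 (y + j) := by
      intro j
      induction j with
      | zero => intro _; rw [add_zero]; omega
      | succ j ih =>
        intro h4
        have h5 := ih (by omega)
        have h6 := mono_of hV.play.mono (show y ≤ y + j by omega) (by omega)
        have h7 := hk2le (y + j) (by omega)
        have h8 := mono_of hV.play.mono (show y ≤ y + j + 1 by omega) (by omega)
        have h9 := hk2le (y + j + 1) (by omega)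
        have h10 := hV.play.inc (y + j) (by omega) h5 (by omega)
        rw [← add_assoc]
        omega
    have h4 := key (τ - y) (by omega)
    rw [show y + (τ - y) = τ by omega, (hk2 τ le_rfl hτs).2] at h4
    unfold na at h4
    omega
  -- the new play
  set K := bk s N1 κ2 κ with hK
  set X := bx m μ s N1 (N - N1) x2 κ x with hX
  have K1 : ∀ y, y < s → K y = κ2 y := fun y h => by
    rw [hK]; unfold bk; rw [if_pos h]
  have K2 : ∀ y, s ≤ y → K y = κ y + N1 := fun y h => by
    rw [hK]; unfold bk; rw [if_neg (by omega)]
  have X1 : ∀ y, y < s → X y = x2 y := fun y h => by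
    rw [hX]; unfold bx; rw [if_pos h]
  have X2 : ∀ y, s ≤ y → κ y < N - N1 → X y = x y - (μ - m (N1 + κ y)) := fun y h h' => by
    rw [hX]; unfold bx; rw [if_neg (by omega), if_pos h']
  have X3 : ∀ y, s ≤ y → ¬ κ y < N - N1 → X y = 0 := fun y h h' => by
    rw [hX]; unfold bx; rw [if_neg (by omega), if_neg h']
  -- the multiplicity of the moving point
  have hm : ∀ y, s ≤ y → y < R → κ y < N - N1 →
      μ ≤ m (N1 + κ y) + δ ∧ m (N1 + κ y) ≤ μ ∧ na μ R y ≤ x y ∧ R + δ < y + 1 + μ := by
    intro y h1 h2 h3
    have h4 := hV.main (N1 + κ y) (by omega) (by omega)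
    exact ⟨h4.1, h4.2, hP.nat y h2 h3, by omega⟩
  refine ⟨⟨?_, ?_, ?_, ?_, ?_, ?_, ?_, ?_⟩, ?_, ?_⟩
  · -- mono
    intro y hy
    rcases lt_trichotomy (y + 1) s with h | h | h
    · rw [K1 y (by omega), K1 _ h]
      exact hV.play.mono y hy
    · rw [K1 y (by omega), K2 _ h.ge, (hk2 y (by omega) (by omega)).1]
      have := hkge (y + 1) (by omega) (by omega)
      omega
    · rw [K2 y (by omega), K2 _ (by omega)]
      have := hP.mono y hy
      omega
  · -- le
    intro y hy
    by_cases h : y < s
    · rw [K1 y h]
      exact hV.play.le y hy
    · rw [K2 y (by omega)]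
      have := hP.le y hy
      omega
  · -- lt
    intro y hy hKN
    by_cases h : y < s
    · rw [K1 y h] at hKN ⊢
      rw [X1 y h]
      exact hV.play.lt y hy hKN
    · rw [K2 y (by omega)] at hKN ⊢
      have h1 : κ y < N - N1 := by omega
      rw [X2 y (by omega) h1, add_comm (κ y) N1]
      have h2 := hm y (by omega) (by omega) h1
      have h3 := hP.lt y hy
      unfold na at h2
      omega
  · -- nat
    intro y hy hKN
    by_cases h : y < s
    · rw [K1 y h] at hKN ⊢
      rw [X1 y h]
      exact hV.play.nat y hy hKN
    · rw [K2 y (by omega)] at hKN ⊢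
      have h1 : κ y < N - N1 := by omega
      rw [X2 y (by omega) h1, add_comm (κ y) N1]
      have h2 := hm y (by omega) hy h1
      unfold na at h2 ⊢
      omega
  · -- fin
    intro y hy hKN
    by_cases h : y < s
    · rw [K1 y h] at hKN
      rw [X1 y h]
      exact hV.play.fin y hy hKN
    · rw [K2 y (by omega)] at hKN
      exact X3 y (by omega) (by omega)
  · -- inc
    intro y hy hX0 hKe
    rcases lt_trichotomy (y + 1) s with h | h | h
    · rw [K1 y (by omega), K1 _ h] at hKe
      rw [X1 y (by omega)] at hX0 ⊢
      rw [X1 _ h]
      exact hV.play.inc y hy hX0 hKe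
    · rw [K1 y (by omega), K2 _ h.ge, (hk2 y (by omega) (by omega)).1] at hKe
      rw [X1 y (by omega), (hk2 y (by omega) (by omega)).2] at hX0 ⊢
      have h1 : κ (y + 1) = g - N1 := by omega
      rw [X2 _ h.ge (by omega), h1, show N1 + (g - N1) = g by omega]
      have h2 := hkτ y (by omega) (by omega)
      have h3 : 0 < x y := by
        rw [h2.2]
        unfold na at hX0 ⊢
        omega
      have h4 := hP.inc y hy h3 (by rw [h1, h2.1])
      rw [h2.2] at h4
      unfold na at hX0 h4 ⊢
      omega
    · rw [K2 y (by omega), K2 _ (by omega)] at hKe
      have h1 : κ (y + 1) = κ y := by omega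
      by_cases h2 : κ y < N - N1
      · rw [X2 y (by omega) h2] at hX0 ⊢
        rw [X2 _ (by omega) (by omega), h1]
        have h4 := hP.inc y hy (by omega) h1
        omega
      · rw [X3 y (by omega) h2] at hX0
        omega
  · -- lastκ
    rw [K2 _ (by omega), K2 _ (by omega), hP.lastκ]
  · -- lastx
    intro hKN
    rw [K2 _ (by omega)] at hKN ⊢
    have h1 : κ (R - 1) < N - N1 := by omega
    rw [X2 _ (by omega) h1, hP.lastx h1, add_comm (κ (R - 1)) N1]
    have h2 := hm (R - 1) (by omega) (by omega) h1
    omega
  · -- the rows before `τ`
    intro z hz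
    unfold uz
    refine sum_congr rfl fun c _ => ?_
    exact va_before fun y hy => ⟨K1 y (by omega), X1 y (by omega)⟩
  · -- the rows after `τ`
    intro z hz hzR
    have hKg : ∀ y, τ ≤ y → y < R → g ≤ K y := by
      intro y h1 h2
      by_cases h : y < s
      · rw [K1 y h, (hk2 y h1 h).1]
      · rw [K2 y (by omega)]
        have := hkge y h1 h2
        omega
    -- old points of the real play
    have hold : ∀ c < g, va (m c) R K X c z = va (m c) R κ2 x2 c z := by
      intro c hc
      refine va_old (τ := τ) (fun y hy => ⟨K1 y (by omega), X1 y (by omega)⟩) ?_ ?_ hz hzR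
      · intro y h1 h2
        exact lt_of_lt_of_le hc (hKg y h1 h2)
      · intro y h1 h2
        rw [(hV.pa y h1 h2).1]
        exact hc
    have holdv : ∀ i < g - N1, va μ R κ x i z = va (m (N1 + i)) R K X (N1 + i) z := by
      intro i hi
      rw [hold (N1 + i) (by omega), ← (hvc (N1 + i) (by omega) (by omega)).2.2 z hz hzR,
        show N1 + i - N1 = i by omega]
      refine va_old (τ := τ) (fun y hy => ⟨(hag y (by omega)).1, (hag y (by omega)).2⟩) ?_ ?_ hz hzR
      · intro y h1 h2
        exact lt_of_lt_of_le hi (hkge y h1 h2)
      · intro y h1 h2
        rw [(hvt y h1 h2).1]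
        exact hi
    -- the other points
    have hnew : ∀ i < N - g, va μ R κ x (g - N1 + i) z =
        va (m (g + i)) R K X (g + i) z + min (μ - m (g + i)) (z + 1 + μ - R) := by
      intro i hi
      obtain ⟨hm1, hm2⟩ := hV.main (g + i) (by omega) (by omega)
      by_cases hzs : z < s
      · -- natural values
        have e1 : va μ R κ x (g - N1 + i) z = na μ R z := by
          have h1 := hkτ z hz hzs
          unfold va nn
          by_cases h2 : κ z < g - N1 + i
          · rw [if_pos h2]
          · rw [if_neg h2, if_neg h2, if_pos (by omega), h1.2]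
        have e2 : va (m (g + i)) R K X (g + i) z = na (m (g + i)) R z := by
          have h1 := hk2 z hz hzs
          have h3 := K1 z hzs
          have h4 := X1 z hzs
          unfold va nn
          by_cases h2 : K z < g + i
          · rw [if_pos h2]
          · have h5 : i = 0 := by omega
            rw [if_neg h2, if_neg h2, if_pos (by omega), h4, h1.2, h5, add_zero]
        rw [e1, e2]
        unfold na
        omega
      · have hKz := K2 z (by omega)
        rcases lt_trichotomy (κ z) (g - N1 + i) with h | h | h
        · have e1 : va μ R κ x (g - N1 + i) z = na μ R z := by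
            unfold va
            rw [if_pos h]
          have e2 : va (m (g + i)) R K X (g + i) z = na (m (g + i)) R z := by
            unfold va
            rw [if_pos (by omega)]
          rw [e1, e2]
          unfold na
          omega
        · have e1 : va μ R κ x (g - N1 + i) z = x z := by
            unfold va nn
            rw [if_neg (by omega), if_neg (by omega), if_pos h]
          have e2 : va (m (g + i)) R K X (g + i) z = x z - (μ - m (g + i)) := by
            unfold va nn
            rw [if_neg (by omega), if_neg (by omega), if_pos (by omega),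
              X2 z (by omega) (by omega), show N1 + κ z = g + i by omega]
          have h5 := hm z (by omega) hzR (by omega)
          rw [e1, e2]
          unfold na at h5
          omega
        · -- old
          have e1 : st κ (g - N1 + i) z = st K (g + i) z := by
            unfold st
            congr 1
            ext y
            rw [mem_filter, mem_filter, mem_range]
            by_cases hy : y < s
            · have h1 := hkle y hy
              have h2 := hk2le y hy
              rw [K1 y hy]
              constructor
              · rintro ⟨h3, -⟩; exact ⟨h3, by omega⟩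
              · rintro ⟨h3, -⟩; exact ⟨h3, by omega⟩
            · rw [K2 y (by omega)]
              constructor
              · rintro ⟨h3, h4⟩; exact ⟨h3, by omega⟩
              · rintro ⟨h3, h4⟩; exact ⟨h3, by omega⟩
          have hmv : ∀ y ∈ mv κ x (fun _ => μ) (g - N1 + i) z, s ≤ y := by
            intro y hy
            obtain ⟨h1, h2, h3, h4⟩ := mem_mv.mp hy
            by_contra h5
            have h6 := hkle y (by omega)
            have h7 := hxg y (by omega) (by omega)
            rw [h7] at h3 h4
            unfold na at h3 h4
            omega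
          have e2 : mv κ x (fun _ => μ) (g - N1 + i) z = mv K X (fun _ => m (g + i)) (g + i) z := by
            ext y
            constructor
            · intro hy
              have hys := hmv y hy
              rw [mem_mv] at hy ⊢
              obtain ⟨h1, h2, h3, h4⟩ := hy
              have h5 := hm y hys (by omega) (by omega)
              rw [K2 y hys, X2 y hys (by omega)]
              rw [show N1 + κ y = g + i by omega] at h5 ⊢
              unfold na at h5
              refine ⟨h1, by omega, by omega, by omega⟩
            · intro hy
              rw [mem_mv] at hy ⊢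
              obtain ⟨h1, h2, h3, h4⟩ := hy
              by_cases hys : y < s
              · exfalso
                rw [K1 y hys] at h2
                rw [X1 y hys] at h3 h4
                have h6 := hk2le y hys
                have h7 : i = 0 := by omega
                by_cases h8 : y < τ
                · have := hx2 y h8 (by omega)
                  omega
                · have h9 := hk2 y (by omega) hys
                  rw [h9.2] at h3 h4
                  subst h7
                  rw [add_zero] at h4
                  unfold na at h3 h4
                  omega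
              · rw [K2 y (by omega)] at h2
                rw [X2 y (by omega) (by omega)] at h3 h4
                have h5 := hm y (by omega) (by omega) (by omega)
                rw [show N1 + κ y = g + i by omega] at h3 h4 h5
                unfold na at h5
                refine ⟨h1, by omega, by omega, by omega⟩
          have hst : s ≤ st κ (g - N1 + i) z ∧ st κ (g - N1 + i) z ≤ z := by
            constructor
            · unfold st
              have h1 : range s ⊆ (range z).filter (fun y => κ y ≤ g - N1 + i) := by
                intro y hy
                rw [mem_range] at hy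
                rw [mem_filter, mem_range]
                have := hkle y hy
                exact ⟨by omega, by omega⟩
              have h2 := card_le_card h1
              rw [card_range] at h2
              exact h2
            · unfold st
              exact (card_filter_le _ _).trans (card_range z).le
          have hcard : (mv κ x (fun _ => μ) (g - N1 + i) z).card + s ≤
              st κ (g - N1 + i) z := by
            have h1 : mv κ x (fun _ => μ) (g - N1 + i) z ∪ range s ⊆
                (range z).filter (fun y => κ y ≤ g - N1 + i) := by
              intro y hy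
              rw [mem_union] at hy
              rw [mem_filter, mem_range]
              rcases hy with hy | hy
              · unfold mv at hy
                rw [mem_filter, mem_range] at hy
                exact ⟨hy.1, hy.2.1.le⟩
              · rw [mem_range] at hy
                have := hkle y hy
                exact ⟨by omega, by omega⟩
            have h2 : Disjoint (mv κ x (fun _ => μ) (g - N1 + i) z) (range s) := by
              rw [disjoint_left]
              intro y hy hy2
              have := hmv y hy
              rw [mem_range] at hy2
              omega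
            have h3 := card_le_card h1
            rw [card_union_of_disjoint h2, card_range] at h3
            exact h3
          have e3 : va μ R κ x (g - N1 + i) z = μ - (z - st κ (g - N1 + i) z) -
              (mv κ x (fun _ => μ) (g - N1 + i) z).card := by
            unfold va nn
            rw [if_neg (by omega), if_neg (by omega), if_neg (by omega)]
          have e4 : va (m (g + i)) R K X (g + i) z = m (g + i) - (z - st κ (g - N1 + i) z) -
              (mv κ x (fun _ => μ) (g - N1 + i) z).card := by
            rw [e1, e2]
            unfold va nn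
            rw [if_neg (by omega), if_neg (by omega), if_neg (by omega)]
          rw [e3, e4]
          omega
    -- the sums
    have s1 : lz μ R (N - N1) κ x z = ∑ i ∈ range (g - N1), va μ R κ x i z +
        ∑ i ∈ range (N - g), va μ R κ x (g - N1 + i) z := by
      unfold lz
      rw [show N - N1 = (g - N1) + (N - g) by omega, sum_range_add]
    have s2 : uz m R N K X z = ∑ i ∈ range (g - N1), va (m (N1 + i)) R K X (N1 + i) z +
        ∑ i ∈ range (N - g), va (m (g + i)) R K X (g + i) z := by
      unfold uz
      conv_lhs => rw [show N = (N1 + (g - N1)) + (N - g) by omega]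
      rw [sum_range_add, sum_range_add, show N1 + (g - N1) = g by omega]
      have h0 : ∑ c ∈ range N1, va (m c) R K X c z = 0 := by
        refine sum_eq_zero fun c hc => ?_
        rw [mem_range] at hc
        rw [hold c (by omega)]
        exact hV.dead c hc z hz hzR
      rw [h0, zero_add]
    have s3 : vd m μ R g N z = ∑ i ∈ range (N - g), min (μ - m (g + i)) (z + 1 + μ - R) := by
      unfold vd
      rw [sum_Ico_eq_sum_range]
    rw [s1, s2, s3, add_assoc, ← sum_add_distrib]
    congr 1
    · exact sum_congr rfl fun i hi => holdv i (mem_range.mp hi)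
    · exact sum_congr rfl fun i hi => hnew i (mem_range.mp hi)

end Pool.Agent.Helper73.UW
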